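import Pool.Agent.H770.GS.UQ

/-!
# UQ9 (for helper770): lower bound near `0`, uniform in `τ`
-/

set_option autoImplicit false

open MeasureTheory Set intervalIntegral Filter Topology

namespace Pool.Agent.H898.UQ9

open Pool.Agent.H770.GS

theorem cv_nonneg {r z : ℝ} (hr : 0 < r) {g : ℝ → ℝ} (hg : ∀ x, 0 ≤ g x) (v : ℝ) :
    0 ≤ cv r z g v := by
  unfold cv
  exact intervalIntegral.integral_nonneg (by linarith) fun u _ => mul_nonneg (W_pos u).le (hg _)

theorem dens_nonneg {r : ℝ} (hr : 0 < r) {g : ℝ → ℝ} (hg : ∀ x, 0 ≤ g x) (L : List ℝ) :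
    ∀ x, 0 ≤ dens r L g x := by
  induction L with
  | nil => exact hg
  | cons b L ih => exact cv_nonneg hr ih

theorem mono_int {g : ℝ → ℝ} (hg : Continuous g) (hg0 : ∀ x, 0 ≤ g x) {a b c d : ℝ} (h1 : c ≤ a)
    (h2 : a ≤ b) (h3 : b ≤ d) : ∫ x in a..b, g x ≤ ∫ x in c..d, g x :=
  intervalIntegral.integral_mono_interval h1 h2 h3 (Eventually.of_forall hg0)
    (hg.intervalIntegrable _ _)

theorem W_ge {r u : ℝ} (h1 : -r ≤ u) (h2 : u ≤ r) : W r ≤ W u := by
  unfold W
  apply Real.exp_le_exp.2
  nlinarith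

/-- the base case -/
theorem base {h τ : ℝ} (hh : 0 < h) (hτ : 0 < τ) (hτ1 : τ ≤ 1) :
    ∫ x in (-h)..h, gs 1 x ≤ ∫ x in (-h)..h, gs τ x := by
  have e1 : ∀ x, gs τ x = τ⁻¹ * gs 1 (x / τ) := by
    intro x
    unfold gs
    rw [Real.sqrt_mul (by positivity), Real.sqrt_sq hτ.le, one_pow, mul_one, mul_one]
    have e2 : -x ^ 2 / (2 * τ ^ 2) = -(x / τ) ^ 2 / 2 := by
      field_simp
    rw [e2]
    field_simp
  have e3 : ∫ x in (-h)..h, gs τ x = ∫ x in (-h / τ)..(h / τ), gs 1 x := by
    rw [intervalIntegral.integral_congr (g := fun x => τ⁻¹ * gs 1 (x / τ)) (fun x _ => e1 x),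
      intervalIntegral.integral_const_mul, intervalIntegral.integral_comp_div _ hτ.ne', smul_eq_mul,
      ← mul_assoc, inv_mul_cancel₀ hτ.ne', one_mul]
  rw [e3]
  have h4 : h ≤ h / τ := by
    rw [le_div_iff₀ hτ]
    nlinarith
  exact mono_int (gs_cont 1) (gs_nonneg 1) (by rw [neg_div]; linarith) (by linarith) h4

/-- the induction step -/
theorem step {r z h : ℝ} (hr : 0 < r) (hz : 0 ≤ z) (hh : 0 < h) {G : ℝ → ℝ} (hG : Continuous G)
    (hG0 : ∀ x, 0 ≤ G x) :
    W r * (2 * min r (h / (2 * z + 1))) * ∫ x in (-(h / 2))..(h / 2), G x ≤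
      ∫ v in (-h)..h, cv r z G v := by
  set ε := min r (h / (2 * z + 1)) with hε
  have hε0 : 0 < ε := lt_min hr (by positivity)
  have hεr : ε ≤ r := min_le_left _ _
  have hεz : z * ε ≤ h / 2 := by
    have h1 : ε ≤ h / (2 * z + 1) := min_le_right _ _
    have h2 : ε * (2 * z + 1) ≤ h := (le_div_iff₀ (by positivity)).1 h1
    nlinarith
  have hW := W_cont
  have hcW := hW
  -- the pointwise bound
  have h1 : ∀ v, W r * ∫ u in (-ε)..ε, G (v + z * u) ≤ cv r z G v := by
    intro v
    unfold cv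
    have hc : Continuous fun u => W u * G (v + z * u) := by fun_prop
    calc W r * ∫ u in (-ε)..ε, G (v + z * u) = ∫ u in (-ε)..ε, W r * G (v + z * u) :=
          (intervalIntegral.integral_const_mul _ _).symm
      _ ≤ ∫ u in (-ε)..ε, W u * G (v + z * u) := by
          refine intervalIntegral.integral_mono_on (by linarith)
            (Continuous.intervalIntegrable (by fun_prop) _ _) (hc.intervalIntegrable _ _) ?_
          intro u hu
          exact mul_le_mul_of_nonneg_right (W_ge (by linarith [hu.1]) (by linarith [hu.2])) (hG0 _)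
      _ ≤ ∫ u in (-r)..r, W u * G (v + z * u) :=
          mono_int hc (fun u => mul_nonneg (W_pos u).le (hG0 _)) (by linarith) (by linarith) hεr
  have hcont2 : Continuous fun v => ∫ u in (-ε)..ε, G (v + z * u) := by
    refine intervalIntegral.continuous_parametric_intervalIntegral_of_continuous' ?_ _ _
    fun_prop
  have h2 : W r * ∫ v in (-h)..h, ∫ u in (-ε)..ε, G (v + z * u) ≤ ∫ v in (-h)..h, cv r z G v := by
    rw [← intervalIntegral.integral_const_mul]
    refine intervalIntegral.integral_mono_on (by linarith)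
      (Continuous.intervalIntegrable (by fun_prop) _ _) ((cv_cont hG).intervalIntegrable _ _) ?_
    intro v _
    exact h1 v
  refine le_trans ?_ h2
  rw [mul_assoc]
  refine mul_le_mul_of_nonneg_left ?_ (W_pos r).le
  rw [swap_cont (F := fun v u => G (v + z * u)) (by fun_prop)]
  have h3 : ∫ u in (-ε)..ε, (∫ x in (-(h / 2))..(h / 2), G x) =
      2 * ε * ∫ x in (-(h / 2))..(h / 2), G x := by
    rw [intervalIntegral.integral_const, smul_eq_mul]
    ring
  rw [← h3]
  have hcont3 : Continuous fun u => ∫ v in (-h)..h, G (v + z * u) := by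
    refine intervalIntegral.continuous_parametric_intervalIntegral_of_continuous' ?_ _ _
    fun_prop
  refine intervalIntegral.integral_mono_on (by linarith)
    (Continuous.intervalIntegrable (by fun_prop) _ _) (hcont3.intervalIntegrable _ _) ?_
  intro u hu
  have e1 : ∫ v in (-h)..h, G (v + z * u) = ∫ x in (-h + z * u)..(h + z * u), G x :=
    intervalIntegral.integral_comp_add_right (fun x => G x) (z * u)
  rw [e1]
  have k1 : z * u ≤ h / 2 := (mul_le_mul_of_nonneg_left hu.2 hz).trans hεz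
  have k2 : -(h / 2) ≤ z * u := by
    have := mul_le_mul_of_nonneg_left hu.1 hz
    linarith
  exact mono_int hG hG0 (by linarith) (by linarith) (by linarith)

/-- the integrals near zero -/
theorem low_int {r : ℝ} (hr : 0 < r) (L : List ℝ) (hL : ∀ x ∈ L, 0 ≤ x) :
    ∀ h : ℝ, 0 < h → ∃ c : ℝ, 0 < c ∧ ∀ τ : ℝ, 0 < τ → τ ≤ 1 →
      c ≤ ∫ x in (-h)..h, dens r L (gs τ) x := by
  induction L with
  | nil =>
    intro h hh
    refine ⟨∫ x in (-h)..h, gs 1 x, ?_, fun τ hτ hτ1 => base hh hτ hτ1⟩
    refine intervalIntegral.intervalIntegral_pos_of_pos ((gs_cont 1).intervalIntegrable _ _)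
      (fun x => ?_) (by linarith)
    unfold gs
    positivity
  | cons z L ih =>
    intro h hh
    obtain ⟨c, hc, hc2⟩ := ih (fun x hx => hL x (List.mem_cons_of_mem _ hx)) (h / 2) (by linarith)
    have hz : 0 ≤ z := hL z List.mem_cons_self
    have hε : 0 < min r (h / (2 * z + 1)) := lt_min hr (by positivity)
    have hWr := W_pos r
    refine ⟨W r * (2 * min r (h / (2 * z + 1))) * c, by positivity, fun τ hτ hτ1 => ?_⟩
    rw [dens_cons]
    refine le_trans ?_ (step hr hz hh (dens_cont (gs_cont τ) L) (dens_nonneg hr (gs_nonneg τ) L))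
    exact mul_le_mul_of_nonneg_left (hc2 τ hτ hτ1) (by positivity)

theorem low : S_low := by
  intro r L hr hL hex
  obtain ⟨z, hzL, hz⟩ := hex
  have hperm : L.Perm (z :: L.erase z) := List.perm_cons_erase hzL
  have hL' : ∀ x ∈ L.erase z, 0 ≤ x := fun x hx => hL x (List.mem_of_mem_erase hx)
  obtain ⟨c, hc, hc2⟩ := low_int hr (L.erase z) hL' (z * r / 2) (by positivity)
  have hWr := W_pos r
  refine ⟨z * r / 2, by positivity, W r * (z⁻¹ * c), by positivity, fun τ hτ hτ1 v hv => ?_⟩
  rw [dens_perm (gs_cont τ) hperm, dens_cons]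
  set G := dens r (L.erase z) (gs τ) with hGd
  have hG : Continuous G := dens_cont (gs_cont τ) _
  have hG0 : ∀ x, 0 ≤ G x := dens_nonneg hr (gs_nonneg τ) _
  have hW := W_cont
  obtain ⟨hv1, hv2⟩ := abs_le.1 hv
  unfold cv
  calc W r * (z⁻¹ * c) ≤ W r * (z⁻¹ * ∫ x in (v + z * (-r))..(v + z * r), G x) := by
        refine mul_le_mul_of_nonneg_left (mul_le_mul_of_nonneg_left ?_ (by positivity)) hWr.le
        refine (hc2 τ hτ hτ1).trans (mono_int hG hG0 ?_ ?_ ?_)
        · linarith
        · have : 0 < z * r := by positivity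
          linarith
        · linarith
    _ = W r * ∫ u in (-r)..r, G (v + z * u) := by
        rw [intervalIntegral.integral_comp_add_mul _ hz.ne', smul_eq_mul]
    _ = ∫ u in (-r)..r, W r * G (v + z * u) := (intervalIntegral.integral_const_mul _ _).symm
    _ ≤ ∫ u in (-r)..r, W u * G (v + z * u) := by
        refine intervalIntegral.integral_mono_on (by linarith)
          (Continuous.intervalIntegrable (by fun_prop) _ _)
          (Continuous.intervalIntegrable (by fun_prop) _ _) ?_
        intro u hu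
        exact mul_le_mul_of_nonneg_right (W_ge hu.1 hu.2) (hG0 _)

end Pool.Agent.H898.UQ9
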